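import Pool.Agent.Lib.MP_776403_ag.SD.SpecA
import Pool.Agent.Lib.MP_776403_ag.SD.SpecB
import Pool.Agent.Lib.MP_776403_ag.SD.SpecE
import Pool.Agent.Lib.MP_776403_ag.SD.M.NN

/-!
# THEOREM SD, part H: the same induction from weaker hypotheses

The statements of parts A, B, E with the hypotheses `H.Hyp`.  Docstrings: see the original files.
-/

set_option autoImplicit false

open MvPolynomial

noncomputable section

namespace Pool.Agent.Lib.MP_776403_ag.SD.H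

variable {N : ℕ}

/-- `span (x, v)` is a line in `X` of minimal degree with respect to `N_X` (in the applications: all
lines, or all lines `l` with `deg N_X|_l = ∑ d i`). -/
def GLine (I : Ideal (Sx N)) (x v : Vx N) : Prop :=
  IsLine I x v ∧ ∀ x' v' : Vx N, IsLine I x' v' → ∀ᶠ m : ℕ in Filter.atTop,
    Module.finrank ℂ (Lam I (lineI x' v') 1 m) ≤ Module.finrank ℂ (Lam I (lineI x v) 1 m)

/-- Version of `SD.PL`. -/
def PL (I : Ideal (Sx N)) {c : ℕ} (d : Fin c → ℕ) (K : ℕ) (G : Fin c → Sx N) : Prop :=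
  ∀ x v : Vx N, GLine I x v → ∀ s ∈ Sec I x v (K - 1), ∃ L : Fin c → Polynomial ℂ,
    (∀ i, L i ∈ Polynomial.degreeLT ℂ (K - d i)) ∧ s = ∑ i, fun k => L i * gradL x v (G i) k

/-- Version of `SD.Hyp`. -/
structure Hyp (I : Ideal (Sx N)) {c : ℕ} (d : Fin c → ℕ) : Prop where
  pos : 1 ≤ c
  two_le : ∀ i, 2 ≤ d i
  large : 2 * ∑ i, d i + c ≤ N
  prime : I.IsPrime
  hom : IsHom I
  nd : ∀ F ∈ I, F.IsHomogeneous 1 → F = 0
  smooth : Smooth I c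
  numW : ∀ J : Ideal (Sx N), J.IsPrime → IsHom J → I ≤ J → NumErr I J d c
  numL : ∀ x v : Vx N, GLine I x v → ∀ᶠ m : ℕ in Filter.atTop,
    c * (m + 1) ≤ Module.finrank ℂ (Lam I (lineI x v) 1 m) + ∑ i, d i
  clos : ∀ (x v0 : Vx N) (P : Ideal (Sx N)), GLine I x v0 → P.IsPrime → IsHom P → I ≤ P →
    v0 ∈ zer P → (∀ z ∈ zer P, ∀ s t : ℂ, s • x + t • z ∈ zer I) →
    ∀ z ∈ zer P, LinearIndependent ℂ ![x, z] → GLine I x z
  reg : RegBound I d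
  cov : ∀ y ∈ zer I, y ≠ 0 → ∃ v : Vx N, GLine I y v

/-- Version of `SD.S_N`. -/
def S_N : Prop :=
  ∀ (N c : ℕ) (d : Fin c → ℕ) (I : Ideal (Sx N)), Hyp I d →
  ∀ J : Ideal (Sx N), J.IsPrime → IsHom J → I ≤ J →
  ∀ (q : ℕ) (sig : Fin (q + 1) → (Vx N → Vx N)) (del : Fin (q + 1) → ℕ) (f : Fin q → Fin c),
    (∀ i, IsSect I J (del i) (sig i)) → (∀ i, 1 ≤ del i) →
    (∀ y ∈ zer J, y ≠ 0 → LinearIndependent ℂ (fun i => sig i y)) →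
    Function.Injective f → (∀ i, del (Fin.castSucc i) = d (f i)) →
    (∀ j, j ∉ Set.range f → d j ≠ del (Fin.last q)) → ¬ DimGe J (c - q + 1 + c)

/-- Version of `SD.S_Line`. -/
def S_Line : Prop :=
  ∀ (N c : ℕ) (d : Fin c → ℕ) (I : Ideal (Sx N)), Hyp I d → ∀ x v0 : Vx N, GLine I x v0 →
    ∃ P : Ideal (Sx N), P.IsPrime ∧ IsHom P ∧ I ≤ P ∧ DimGe P (N + 1 - ∑ i, d i) ∧
      (∀ z ∈ zer P, ∀ s t : ℂ, s • x + t • z ∈ zer I) ∧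
      ∀ z ∈ zer P, LinearIndependent ℂ ![x, z] → GLine I x z

/-- Version of `SD.S_A`. -/
def S_A : Prop :=
  ∀ (N c : ℕ) (d : Fin c → ℕ) (I : Ideal (Sx N)), Hyp I d → ∀ (K : ℕ) (G : Fin c → Sx N),
    1 ≤ K → Data I d K G → PL I d K G → PL I d (K + 1) G

/-- Version of `SD.S_B`. -/
def S_B : Prop :=
  ∀ (N c : ℕ) (d : Fin c → ℕ) (I : Ideal (Sx N)), Hyp I d → ∀ (K : ℕ) (G : Fin c → Sx N),
    1 ≤ K → Data I d K G → PL I d (K + 1) G →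
    ∃ G' : Fin c → Sx N, (∀ i, d i ≤ K → G' i = G i) ∧ Data I d (K + 1) G'

/-- Version of `SD.S_L1`. -/
def S_L1 : Prop :=
  ∀ (N c : ℕ) (d : Fin c → ℕ) (I : Ideal (Sx N)), Hyp I d → ∀ (K : ℕ) (G : Fin c → Sx N),
    Data I d K G → ∀ x v : Vx N, IsLine I x v → ∀ (n : ℕ), ∀ s ∈ Sec I x v n,
    (∀ t : ℂ, (fun i => (s i).eval t) ∈ GS d K G (x + t • v)) →
    ∃ L : Fin c → Polynomial ℂ, (∀ i, L i ∈ Polynomial.degreeLT ℂ (n + 1 - d i)) ∧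
      (∀ i, K < d i → L i = 0) ∧ s = ∑ i, fun k => L i * gradL x v (G i) k

/-- Version of `SD.S_L3`. -/
def S_L3 : Prop :=
  ∀ (N c : ℕ) (d : Fin c → ℕ) (I : Ideal (Sx N)), Hyp I d → ∀ (K K' : ℕ) (G : Fin c → Sx N),
    1 ≤ K → (K' = K ∨ K' = K + 1) → Data I d K G → PL I d K' G →
    ∀ x v : Vx N, GLine I x v → ∀ s ∈ Sec I x v K', ∀ σ τ : ℂ, (σ ≠ 0 ∨ τ ≠ 0) →
    hval s K' σ τ ∈ GS d K G (σ • x + τ • v) →
    ∃ L : Fin c → Polynomial ℂ, (∀ i, L i ∈ Polynomial.degreeLT ℂ (K' + 1 - d i)) ∧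
      (∀ i, K < d i → L i = 0) ∧ s = ∑ i, fun k => L i * gradL x v (G i) k

/-- Version of `SD.S_Ind`. -/
def S_Ind : Prop := S_A → S_B →
  ∀ (N c : ℕ) (d : Fin c → ℕ) (I : Ideal (Sx N)), Hyp I d →
    ∃ G : Fin c → Sx N, (∀ i, (G i).IsHomogeneous (d i)) ∧ I = Ideal.span (Set.range G)

/-- Version of `SD.S_Ne`. -/
def S_Ne : Prop :=
  ∀ (N c : ℕ) (d : Fin c → ℕ) (I : Ideal (Sx N)), Hyp I d → ∃ y ∈ zer I, y ≠ 0

/-- Version of `SD.S_B1K`. -/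
def S_B1K : Prop :=
  ∀ (N c : ℕ) (d : Fin c → ℕ) (I : Ideal (Sx N)), Hyp I d → ∀ (K : ℕ) (G : Fin c → Sx N),
    Data I d K G →
    (∀ k ≤ K, hci d N k ≤ Module.finrank ℂ (gr (Ideal.span (G '' {i | d i ≤ K})) k)) ∧
    hci d N (K + 1) + Nat.card {i : Fin c // d i = K + 1} ≤
      Module.finrank ℂ (gr (Ideal.span (G '' {i | d i ≤ K})) (K + 1))

/-- Version of `SD.S_RegDim`. -/
def S_RegDim : Prop :=
  ∀ (N c : ℕ) (d : Fin c → ℕ) (I : Ideal (Sx N)), Hyp I d → ∀ k : ℕ,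
    ∃ P : Fin (Module.finrank ℂ (gr I k)) → Sx N, (∀ i, (P i).IsHomogeneous k) ∧
      ∃ f : Fin (Module.finrank ℂ (gr I k)) → (Vx N → ℂ), (∀ i, IsReg I k (f i)) ∧
        LinearIndependent ℂ f ∧ ∀ i, ∀ y ∈ zer I, y ≠ 0 → f i y = eval y (P i)

/-- Version of `SD.S_B2`. -/
def S_B2 : Prop :=
  ∀ (N c : ℕ) (d : Fin c → ℕ) (I : Ideal (Sx N)), Hyp I d → ∀ (K : ℕ) (G : Fin c → Sx N),
    Data I d K G → ∀ k ≤ K, ∀ F : Vx N → ℂ, IsReg I k F →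
    ∃ P : Sx N, P.IsHomogeneous k ∧ ∀ y ∈ zer I, y ≠ 0 → F y = eval y P

/-- Version of `SD.S_W`. -/
def S_W : Prop :=
  ∀ (N c : ℕ) (d : Fin c → ℕ) (I : Ideal (Sx N)), Hyp I d → ∀ (K : ℕ) (G : Fin c → Sx N),
    Data I d K G →
    ∃ F : {i : Fin c // d i = K + 1} → Sx N, (∀ i, F i ∈ I ∧ (F i).IsHomogeneous (K + 1)) ∧
      ∀ a : {i : Fin c // d i = K + 1} → ℂ,
        ∑ i, C (a i) * F i ∈ Ideal.span (G '' {i | d i ≤ K}) → a = 0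

/-- Version of `SD.S_B3`. -/
def S_B3 : Prop :=
  ∀ (N c : ℕ) (d : Fin c → ℕ) (I : Ideal (Sx N)), Hyp I d → ∀ (K : ℕ) (G : Fin c → Sx N),
    1 ≤ K → Data I d K G → ∀ F ∈ I, F.IsHomogeneous (K + 1) →
    F ∉ Ideal.span (G '' {i | d i ≤ K}) → ∃ y ∈ zer I, y ≠ 0 ∧ grad F y ∉ GS d K G y

/-- Version of `SD.S_L3''`. -/
def S_L3'' : Prop :=
  ∀ (N c : ℕ) (d : Fin c → ℕ) (I : Ideal (Sx N)), Hyp I d → ∀ (K : ℕ) (G : Fin c → Sx N),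
    1 ≤ K → Data I d K G → PL I d (K + 1) G → ∀ x v : Vx N, GLine I x v →
    ∀ F ∈ I, F.IsHomogeneous (K + 1) → grad F x ∈ GS d K G x →
    ∀ t : ℂ, grad F (x + t • v) ∈ GS d K G (x + t • v)

/-- Version of `SD.S_B4`. -/
def S_B4 : Prop :=
  ∀ (N c : ℕ) (d : Fin c → ℕ) (I : Ideal (Sx N)), Hyp I d → ∀ (K : ℕ) (G : Fin c → Sx N),
    1 ≤ K → Data I d K G → PL I d (K + 1) G → ∀ F ∈ I, F.IsHomogeneous (K + 1) →
    F ∉ Ideal.span (G '' {i | d i ≤ K}) → ∀ y ∈ zer I, y ≠ 0 → grad F y ∉ GS d K G y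

/-- Version of `SD.S_B5`. -/
def S_B5 : Prop :=
  ∀ (N c : ℕ) (d : Fin c → ℕ) (I : Ideal (Sx N)), Hyp I d → ∀ (K : ℕ) (G : Fin c → Sx N),
    1 ≤ K → Data I d K G → PL I d (K + 1) G → ∀ (r : ℕ) (F : Fin r → Sx N),
    (∀ i, F i ∈ I ∧ (F i).IsHomogeneous (K + 1)) →
    (∀ a : Fin r → ℂ, ∑ i, C (a i) * F i ∈ Ideal.span (G '' {i | d i ≤ K}) → a = 0) →
    r ≤ Nat.card {i : Fin c // d i = K + 1}

/-- Version of `SD.S_Col`. -/
def S_Col : Prop :=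
  ∀ (N c : ℕ) (d : Fin c → ℕ) (I : Ideal (Sx N)), Hyp I d → ∀ (x v0 : Vx N), GLine I x v0 →
    ∀ L : Loc I x c, (∀ e : Fin c → Polynomial ℂ, (fun b => lin x v0 L.dt * e b) ∈ L.E v0) ∧
      Module.Finite ℂ ((Fin c → Polynomial ℂ) ⧸ L.E v0) ∧
      Module.finrank ℂ ((Fin c → Polynomial ℂ) ⧸ L.E v0) + c ≤ ∑ i, d i

/-- Version of `SD.S_ColT`. -/
def S_ColT : Prop :=
  ∀ (N c : ℕ) (d : Fin c → ℕ) (I : Ideal (Sx N)), Hyp I d → ∀ (x v0 : Vx N), GLine I x v0 →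
    ∀ L : Loc I x c, (∀ e : L.Bc → Polynomial ℂ, (fun b => lin x v0 L.dt * e b) ∈ L.T v0) ∧
      Module.Finite ℂ ((L.Bc → Polynomial ℂ) ⧸ L.T v0) ∧
      Module.finrank ℂ ((L.Bc → Polynomial ℂ) ⧸ L.T v0) + c ≤ ∑ i, d i

/-- Version of `SD.S_E0`. -/
def S_E0 : Prop :=
  ∀ (N c : ℕ) (d : Fin c → ℕ) (I : Ideal (Sx N)), Hyp I d → ∀ (x v0 : Vx N), GLine I x v0 →
    ∀ L : Loc I x c, L.good v0 → ∃ b : Fin (∑ i, d i) → Ak N 0, (∀ i, b i ∈ J1 I x 0) ∧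
      J1 I x 0 ≤ Ideal.span (Set.range b) ⊔ ptI (ptA 0 v0 0) * J1 I x 0

/-- Version of `SD.S_E`. -/
def S_E : Prop :=
  ∀ (N c : ℕ) (d : Fin c → ℕ) (I : Ideal (Sx N)), Hyp I d → ∀ (x v0 : Vx N), GLine I x v0 →
    ∀ L : Loc I x c, L.good v0 → ∀ (k : ℕ), ∀ s0 ∈ Sec I x v0 (k + 1),
    ∃ b : Fin (∑ i, d i + (∑ i, d i - c) + (N + 1 - c) * k) → Ak N k,
      (∀ i, b i ∈ J1 I x k ⊔ J2 I x (fun i => (s0 i).coeff 0) k) ∧
      J1 I x k ⊔ J2 I x (fun i => (s0 i).coeff 0) k ≤ Ideal.span (Set.range b) ⊔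
        ptI (ptA k v0 s0) * (J1 I x k ⊔ J2 I x (fun i => (s0 i).coeff 0) k)

/-- Version of `SD.S_LineOf`. -/
def S_LineOf : Prop :=
  S_Loc → S_Good → S_E0 → S_WH → S_PtE → S_Krull → S_Frac → S_P0 → S_Line

/-- Version of `SD.S_Fam`. -/
def S_Fam : Prop :=
  ∀ (N c : ℕ) (d : Fin c → ℕ) (I : Ideal (Sx N)), Hyp I d → ∀ (k : ℕ) (G : Fin c → Sx N),
    1 ≤ k → (∃ i, k + 1 < d i) → ∀ (x v0 lam : Vx N) (w : Fin c → Vx N), GLine I x v0 →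
    ∑ l, lam l * x l = 1 → ∑ l, lam l * v0 l = 0 →
    (∀ i j, d i ≤ k + 1 → d j ≤ k + 1 → ∑ l, w i l * grad (G j) x l = if i = j then 1 else 0) →
    ∀ L : Loc I x c, L.good v0 → ∀ s0 ∈ Sec I x v0 (k + 1),
    (∀ i, ∀ j : ℕ, j < k + 1 - d i → ∑ l, w i l * (s0 l).coeff (j + 1) = 0) →
    ∃ P : Ideal (Ak N k), FamA I d k G x (fun i => (s0 i).coeff 0) lam w P ∧
      P ≤ ptI (ptA k v0 s0) ∧
      ∃ y : Fin (c - Fintype.card {i // d i ≤ k + 1} + 1 + c) → Ak N k ⧸ P, AlgebraicIndependent ℂ y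

/-- Version of `SD.S_PtA`. -/
def S_PtA : Prop :=
  ∀ (N c : ℕ) (d : Fin c → ℕ) (I : Ideal (Sx N)), Hyp I d → ∀ (k : ℕ) (G : Fin c → Sx N),
    PL I d (k + 1) G → ∀ (x ξ lam : Vx N) (w : Fin c → Vx N) (P : Ideal (Ak N k)),
    FamA I d k G x ξ lam w P → (∃ v0 ∈ zer (P0 P), GLine I x v0) →
    ∀ z ∈ zer (P0 P), z ≠ 0 → GLine I x z ∧
    ∃ (s : Fin (N + 1) × Fin k → ℂ) (g : Sx N) (h : Fin (N + 1) × Fin k → Sx N), eval z g ≠ 0 ∧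
      (∀ c, rename Sum.inl g * X (Sum.inr c) - rename Sum.inl (h c) ∈ P) ∧
      (∀ (A : Fin (N + 1) × Fin k → Sx N) (b : Sx N), aff A b ∈ P →
        ∑ c, eval z (A c) * s c + eval z b = 0) ∧
      sp ξ s ∈ Sec I x z (k + 1)

/-- Version of `SD.S_SigA`. -/
def S_SigA : Prop :=
  ∀ (N c : ℕ) (d : Fin c → ℕ) (I : Ideal (Sx N)), Hyp I d → ∀ (k : ℕ) (G : Fin c → Sx N),
    1 ≤ k → PL I d (k + 1) G → ∀ (x ξ lam : Vx N) (w : Fin c → Vx N) (P : Ideal (Ak N k)),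
    FamA I d k G x ξ lam w P → (∃ v0 ∈ zer (P0 P), GLine I x v0) →
    ∃ sig : Vx N → Vx N, IsSect I (P0 P) (k + 1) sig ∧
      ∀ z ∈ zer (P0 P), z ≠ 0 → GLine I x z ∧ ∃ s ∈ Sec I x z (k + 1),
        hval s (k + 1) 1 0 = ξ ∧ hval s (k + 1) 0 1 = sig z

/-- Version of `SD.S_IndA`. -/
def S_IndA : Prop :=
  ∀ (N c : ℕ) (d : Fin c → ℕ) (I : Ideal (Sx N)), Hyp I d → ∀ (K : ℕ) (G : Fin c → Sx N),
    1 ≤ K → Data I d K G → PL I d K G → ∀ (x z ξ u : Vx N), ξ ∉ GS d K G x → GLine I x z →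
    ∀ s ∈ Sec I x z K, hval s K 1 0 = ξ → hval s K 0 1 = u → u ∉ GS d K G z

/-- Version of `SD.S_FinA`. -/
def S_FinA : Prop :=
  ∀ (N c : ℕ) (d : Fin c → ℕ) (I : Ideal (Sx N)), Hyp I d → ∀ (K : ℕ) (G : Fin c → Sx N),
    1 ≤ K → Data I d K G → ∀ J : Ideal (Sx N), J.IsPrime → IsHom J → I ≤ J →
    ∀ sig : Vx N → Vx N, IsSect I J K sig → (∀ y ∈ zer J, y ≠ 0 → sig y ∉ GS d K G y) →
    ¬ DimGe J (c - Fintype.card {i // d i ≤ K} + 1 + c)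

/-- Version of `SD.S_CaseOne`. -/
def S_CaseOne : Prop :=
  ∀ (N c : ℕ) (d : Fin c → ℕ) (I : Ideal (Sx N)), Hyp I d → ∀ (G : Fin c → Sx N),
    Data I d 1 G → ∀ x v : Vx N, GLine I x v → ∀ s ∈ Sec I x v 1,
    (∀ σ τ : ℂ, (σ ≠ 0 ∨ τ ≠ 0) → hval s 1 σ τ ∉ GS d 1 G (σ • x + τ • v)) → False

/-- Version of `SD.S_CaseTwo`. -/
def S_CaseTwo : Prop :=
  ∀ (N c : ℕ) (d : Fin c → ℕ) (I : Ideal (Sx N)), Hyp I d → ∀ (k : ℕ) (G : Fin c → Sx N),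
    1 ≤ k → (∃ i, k + 1 < d i) → Data I d (k + 1) G → PL I d (k + 1) G →
    ∀ x v : Vx N, GLine I x v → ∀ s ∈ Sec I x v (k + 1),
    (∀ σ τ : ℂ, (σ ≠ 0 ∨ τ ≠ 0) → hval s (k + 1) σ τ ∉ GS d (k + 1) G (σ • x + τ • v)) → False

/-- Version of `SD.S_Ari`. -/
def S_Ari : Prop :=
  ∀ (N c k : ℕ) (d : Fin c → ℕ), (∀ i, 2 ≤ d i) → 2 * ∑ i, d i + c ≤ N → 1 ≤ k →
    (∃ i, k + 1 < d i) →
    c - Fintype.card {i // d i ≤ k + 1} + 1 + c ≤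
      Fintype.card (Fin (N + 1) ⊕ (Fin (N + 1) × Fin k)) -
      ((∑ i, d i + (∑ i, d i - c) + (N + 1 - c) * k) + (1 + ∑ i, (k + 1 - d i)))

/-- Version of `SD.S_AOf`. -/
def S_AOf : Prop := S_L3 → S_SecVal → S_Perp → S_CaseOne → S_CaseTwo → S_A

/-- Lines of minimal degree: dependence on the plane only. -/
theorem GLine.congr {I : Ideal (Sx N)} {x v : Vx N} (h : GLine I x v) {x' v' : Vx N}
    (a b a' b' : ℂ) (hx : x' = a • x + b • v) (hv : v' = a' • x + b' • v)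
    (hd : a * b' - b * a' ≠ 0) : GLine I x' v' := by
  have e1 : ∀ s t : ℂ, s • x' + t • v' = (s * a + t * a') • x + (s * b + t * b') • v := by
    intro s t
    rw [hx, hv]
    module
  have hz : ∀ s t : ℂ, s • x' + t • v' ∈ zer I := fun s t => by
    rw [e1]
    exact h.1.2 _ _
  have hI : lineI x' v' = lineI x v := by
    ext F
    constructor
    · intro hF s t
      have h1 := hF ((s * b' - t * a') / (a * b' - b * a')) ((t * a - s * b) / (a * b' - b * a'))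
      rw [e1] at h1
      have h2 : (s * b' - t * a') / (a * b' - b * a') * a +
          (t * a - s * b) / (a * b' - b * a') * a' = s := by
        rw [div_mul_eq_mul_div, div_mul_eq_mul_div, ← add_div, div_eq_iff hd]
        ring
      have h3 : (s * b' - t * a') / (a * b' - b * a') * b +
          (t * a - s * b) / (a * b' - b * a') * b' = t := by
        rw [div_mul_eq_mul_div, div_mul_eq_mul_div, ← add_div, div_eq_iff hd]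
        ring
      rwa [h2, h3] at h1
    · intro hF s t
      have h1 := hF (s * a + t * a') (s * b + t * b')
      rwa [← e1] at h1
  refine ⟨⟨?_, hz⟩, fun x'' v'' h'' => ?_⟩
  · rw [LinearIndependent.pair_iff]
    intro s t hst
    rw [e1] at hst
    obtain ⟨h1, h2⟩ := LinearIndependent.pair_iff.mp h.1.1 _ _ hst
    have h3 : s * (a * b' - b * a') = 0 := by linear_combination b' * h1 - a' * h2
    have h4 : t * (a * b' - b * a') = 0 := by linear_combination a * h2 - b * h1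
    exact ⟨(mul_eq_zero.mp h3).resolve_right hd, (mul_eq_zero.mp h4).resolve_right hd⟩
  · rw [hI]
    exact h.2 x'' v'' h''

/-- Moving the second vector along the first one. -/
theorem GLine.shift {I : Ideal (Sx N)} {x v : Vx N} (h : GLine I x v) (μ : ℂ) :
    GLine I x (v + μ • x) :=
  h.congr 1 0 μ 1 (by module) (by module) (by norm_num)

end Pool.Agent.Lib.MP_776403_ag.SD.H
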