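import Pool.Agent.Lib.MP_776403_ag.SD.SpecB
import Pool.Agent.Lib.MP_776403_ag.SD.H.Defs

/-!
# THEOREM SD, (B2): regular functions of small degree are forms
-/

set_option autoImplicit false

open MvPolynomial

noncomputable section

namespace Pool.Agent.Lib.MP_776403_ag.SD.H

private theorem B2_fin {N : ℕ} (J : Ideal (Sx N)) (m : ℕ) : Module.Finite ℂ (gr J m) := by
  have h1 : Module.Finite ℂ (homogeneousSubmodule (Fin (N + 1)) ℂ m) :=
    Module.Finite.iff_fg.2 (homogeneousSubmodule_fg _ ℂ m)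
  exact Module.Finite.map _ _

private theorem B2_mem {N : ℕ} {J : Ideal (Sx N)} {m : ℕ} {y : Sx N ⧸ J} :
    y ∈ gr J m ↔ ∃ F : Sx N, F.IsHomogeneous m ∧ Ideal.Quotient.mk J F = y := by
  constructor
  · rintro ⟨F, hF, rfl⟩
    exact ⟨F, (mem_homogeneousSubmodule m F).1 hF, rfl⟩
  · rintro ⟨F, hF, rfl⟩
    exact ⟨F, (mem_homogeneousSubmodule m F).2 hF, rfl⟩

private theorem B2_le {N : ℕ} {Q I : Ideal (Sx N)} (hQI : Q ≤ I) {k : ℕ}
    (h : ∀ F ∈ I, F.IsHomogeneous k → F ∈ Q) :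
    Module.finrank ℂ (gr Q k) ≤ Module.finrank ℂ (gr I k) := by
  have hfin := B2_fin I k
  obtain ⟨φ, hφ⟩ : ∃ φ : (Sx N ⧸ Q) →ₗ[ℂ] (Sx N ⧸ I),
      ∀ F, φ (Ideal.Quotient.mk Q F) = Ideal.Quotient.mk I F :=
    ⟨(Ideal.Quotient.factorₐ ℂ hQI).toLinearMap, fun F => rfl⟩
  have h1 : ∀ y ∈ gr Q k, φ y ∈ gr I k := by
    intro y hy
    obtain ⟨F, hF, rfl⟩ := B2_mem.1 hy
    rw [hφ]
    exact B2_mem.2 ⟨F, hF, rfl⟩
  refine LinearMap.finrank_le_finrank_of_injective (f := φ.restrict h1) ?_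
  rw [injective_iff_map_eq_zero]
  rintro ⟨y, hy⟩ h2
  obtain ⟨F, hF, rfl⟩ := B2_mem.1 hy
  have h3 : φ (Ideal.Quotient.mk Q F) = 0 := congrArg Subtype.val h2
  rw [hφ, Ideal.Quotient.eq_zero_iff_mem] at h3
  exact Subtype.ext (Ideal.Quotient.eq_zero_iff_mem.2 (h F h3 hF))

theorem tB2 : S_B1K → S_RegDim → S_B2 := by
  intro hB1K hReg N c d I hyp K G hD k hk F hF
  obtain ⟨P, hP, f, hf1, hf2, hf3⟩ := hReg N c d I hyp k
  obtain ⟨hB, -⟩ := hB1K N c d I hyp K G hD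
  have hQI : Ideal.span (G '' {i | d i ≤ K}) ≤ I := by
    refine Ideal.span_le.2 ?_
    rintro _ ⟨i, hi, rfl⟩
    exact (hD.hom i hi).1
  have h1 := B2_le hQI (k := k) (fun F hF hF' => hD.gen k hk F hF hF')
  have h2 := hB k hk
  have h3 : F ∈ Submodule.span ℂ (Set.range f) := by
    by_contra h0
    have h4 : LinearIndependent ℂ (Fin.cons F f : Fin (Module.finrank ℂ (gr I k) + 1) → Vx N → ℂ) :=
      linearIndependent_finCons.2 ⟨hf2, h0⟩
    have h5 := hyp.reg k (Module.finrank ℂ (gr I k) + 1) (Fin.cons F f)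
      (fun i => by
        refine Fin.cases ?_ (fun j => ?_) i
        · rw [Fin.cons_zero]
          exact hF
        · rw [Fin.cons_succ]
          exact hf1 j) h4
    push_cast at h5
    have h6 : ((Module.finrank ℂ (gr (Ideal.span (G '' {i | d i ≤ K})) k) : ℕ) : ℤ) ≤
        ((Module.finrank ℂ (gr I k) : ℕ) : ℤ) := by exact_mod_cast h1
    linarith
  obtain ⟨a, ha⟩ := (Submodule.mem_span_range_iff_exists_fun ℂ).1 h3
  refine ⟨∑ i, a i • P i, ?_, ?_⟩
  · rw [← mem_homogeneousSubmodule]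
    exact Submodule.sum_mem _ (fun i _ => Submodule.smul_mem _ _
      ((mem_homogeneousSubmodule k (P i)).2 (hP i)))
  · intro y hy hy0
    rw [← ha, Finset.sum_apply, map_sum]
    refine Finset.sum_congr rfl (fun i _ => ?_)
    rw [Pi.smul_apply, hf3 i y hy hy0, smul_eval, smul_eq_mul]

end Pool.Agent.Lib.MP_776403_ag.SD.H
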