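import Pool.Agent.Lib.MP_776403_ag.SD.SpecB
import Pool.Agent.Lib.MP_776403_ag.SD.H.Defs

/-!
# THEOREM SD, module B4: nowhere dependent gradients (helper24)
-/

set_option autoImplicit false

open MvPolynomial

noncomputable section

namespace Pool.Agent.Lib.MP_776403_ag.SD.H

private theorem B4_transport (hL : S_L3'') {N c : ℕ} {d : Fin c → ℕ} {I : Ideal (Sx N)}
    (hyp : Hyp I d) {K : ℕ} {G : Fin c → Sx N} (hK : 1 ≤ K) (hD : Data I d K G)
    (hP : PL I d (K + 1) G) {F : Sx N} (hF : F ∈ I) (hFh : F.IsHomogeneous (K + 1))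
    {u z : Vx N} (hu : u ≠ 0) (hz : z ≠ 0) (huz : LinearIndependent ℂ ![u, z] → GLine I u z)
    (h : grad F u ∈ GS d K G u) : grad F z ∈ GS d K G z := by
  by_cases hind : LinearIndependent ℂ ![u, z]
  · have hline : GLine I u (z - u) :=
      (huz hind).congr 1 0 (-1) 1 (by module) (by module) (by norm_num)
    have h2 := hL N c d I hyp K G hK hD hP u (z - u) hline F hF hFh h 1
    rwa [one_smul, add_sub_cancel] at h2
  · -- dependent vectors
    obtain ⟨b, hb⟩ : ∃ b : ℂ, z = b • u := by
      rw [LinearIndependent.pair_iff] at hind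
      push Not at hind
      obtain ⟨s, t, hst, hne⟩ := hind
      by_cases ht : t = 0
      · exfalso
        rw [ht, zero_smul, add_zero] at hst
        rcases smul_eq_zero.1 hst with h1 | h1
        · exact hne h1 ht
        · exact hu h1
      · refine ⟨-(t⁻¹ * s), ?_⟩
        have h1 : t • z = -(s • u) := by
          rw [eq_neg_iff_add_eq_zero, add_comm]
          exact hst
        have h2 : z = t⁻¹ • (t • z) := by rw [smul_smul, inv_mul_cancel₀ ht, one_smul]
        rw [h2, h1, smul_neg, smul_smul, neg_smul]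
    have hb0 : b ≠ 0 := by
      intro h0
      rw [h0, zero_smul] at hb
      exact hz hb
    subst hb
    rw [grad_smul_form hFh]
    refine Submodule.smul_mem _ _ ?_
    have hle : GS d K G u ≤ GS d K G (b • u) := by
      refine Submodule.span_le.2 ?_
      rintro w ⟨i, hi, rfl⟩
      have h1 := grad_smul_form (hD.hom i hi).2 b u
      have h2 : grad (G i) u = (b ^ (d i - 1))⁻¹ • grad (G i) (b • u) := by
        rw [h1, smul_smul, inv_mul_cancel₀ (pow_ne_zero _ hb0), one_smul]
      rw [h2]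
      exact Submodule.smul_mem _ _ (Submodule.subset_span ⟨i, hi, rfl⟩)
    exact hle h

theorem tB4 : S_B3 → S_L3'' → S_Line → S_Meet → S_B4 := by
  intro hB3 hL hLine hMeet N c d I hyp K G hK hD hP F hF hFh hFG y hy hy0 hyZ
  obtain ⟨x, hx, hx0, hxZ⟩ := hB3 N c d I hyp K G hK hD F hF hFh hFG
  obtain ⟨vx, hvx⟩ := hyp.cov x hx hx0
  obtain ⟨vy, hvy⟩ := hyp.cov y hy hy0
  obtain ⟨Px, hPx, hPxh, -, hPxd, -, hPxl⟩ := hLine N c d I hyp x vx hvx
  obtain ⟨Py, hPy, hPyh, -, hPyd, -, hPyl⟩ := hLine N c d I hyp y vy hvy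
  have hN := hyp.large
  obtain ⟨z, hz0, hzx, hzy⟩ := hMeet N Px Py _ _ hPx hPy hPxh hPyh hPxd hPyd (by omega)
  have h1 : grad F z ∈ GS d K G z :=
    B4_transport hL hyp hK hD hP hF hFh hy0 hz0 (hPyl z hzy) hyZ
  have h2 : grad F x ∈ GS d K G x := by
    refine B4_transport hL hyp hK hD hP hF hFh hz0 hx0 (fun hi => ?_) h1
    have hi' : LinearIndependent ℂ ![x, z] := by
      rw [LinearIndependent.pair_iff] at hi ⊢
      intro s t hst
      rw [add_comm] at hst
      exact (hi t s hst).symm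
    exact (hPxl z hzx hi').congr 0 1 1 0 (by module) (by module) (by norm_num)
  exact hxZ h2

end Pool.Agent.Lib.MP_776403_ag.SD.H
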