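import Pool.Agent.Lib.MP_776403_ag.SD.SpecB
import Pool.Agent.Lib.MP_776403_ag.SD.H.Defs

/-!
# THEOREM SD: new forms of degree K + 1, lower bound (module W)
-/

set_option autoImplicit false

open MvPolynomial

noncomputable section

namespace Pool.Agent.Lib.MP_776403_ag.SD.H

/-- Abstract form: two linear maps `f`, `g` with `ker g ≤ ker f`; the kernel of `f` contains
`rank g - rank f` elements which are independent modulo `ker g`. -/
private theorem exists_indep {H V W : Type} [AddCommGroup H] [Module ℂ H] [AddCommGroup V]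
    [Module ℂ V] [AddCommGroup W] [Module ℂ W] [Module.Finite ℂ H] (f : H →ₗ[ℂ] V)
    (g : H →ₗ[ℂ] W) (m : ℕ)
    (hm : Module.finrank ℂ (LinearMap.range f) + m ≤ Module.finrank ℂ (LinearMap.range g)) :
    ∃ u : Fin m → H, (∀ i, f (u i) = 0) ∧ ∀ a : Fin m → ℂ, ∑ i, a i • g (u i) = 0 → a = 0 := by
  have h1 := LinearMap.finrank_range_add_finrank_ker f
  have h2 := LinearMap.finrank_range_add_finrank_ker g
  let g' : LinearMap.ker f →ₗ[ℂ] W := g ∘ₗ (LinearMap.ker f).subtype
  have h3 := LinearMap.finrank_range_add_finrank_ker g'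
  have h4 : Module.finrank ℂ (LinearMap.ker g') ≤ Module.finrank ℂ (LinearMap.ker g) := by
    let j : LinearMap.ker g' →ₗ[ℂ] LinearMap.ker g :=
      LinearMap.codRestrict (LinearMap.ker g)
        ((LinearMap.ker f).subtype ∘ₗ (LinearMap.ker g').subtype) (fun x => x.2)
    refine LinearMap.finrank_le_finrank_of_injective (f := j) ?_
    intro x y hxy
    have h5 : ((x : LinearMap.ker f) : H) = ((y : LinearMap.ker f) : H) :=
      congrArg (fun z : LinearMap.ker g => (z : H)) hxy
    exact Subtype.ext (Subtype.ext h5)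
  have h6 : m ≤ Module.finrank ℂ (LinearMap.range g') := by lia
  obtain ⟨w, hw⟩ := exists_linearIndependent_of_le_finrank h6
  choose u hu using fun i => (w i).2
  refine ⟨fun i => (u i : H), fun i => (u i).2, fun a ha => ?_⟩
  rw [Fintype.linearIndependent_iff] at hw
  funext i
  refine hw a ?_ i
  apply Subtype.ext
  rw [Submodule.coe_sum, Submodule.coe_zero, ← ha]
  refine Finset.sum_congr rfl fun i _ => ?_
  rw [Submodule.coe_smul, ← hu i]
  rfl

theorem tW : S_B1K → S_RegDim → S_W := by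
  intro hB1K hReg N c d I hI K G hD
  have hfin : Module.Finite ℂ (homogeneousSubmodule (Fin (N + 1)) ℂ (K + 1)) :=
    Module.Finite.iff_fg.2 (homogeneousSubmodule_fg _ _ _)
  have h1 := (hB1K N c d I hI K G hD).2
  obtain ⟨P, -, f, hf1, hf2, -⟩ := hReg N c d I hI (K + 1)
  have h2 := hI.reg (K + 1) _ f hf1 hf2
  have h3 : Module.finrank ℂ (gr I (K + 1)) + Nat.card {i : Fin c // d i = K + 1} ≤
      Module.finrank ℂ (gr (Ideal.span (G '' {i | d i ≤ K})) (K + 1)) := by lia
  have hrange : ∀ J : Ideal (Sx N), LinearMap.range ((Ideal.Quotient.mkₐ ℂ J).toLinearMap ∘ₗ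
      (homogeneousSubmodule (Fin (N + 1)) ℂ (K + 1)).subtype) = gr J (K + 1) := by
    intro J
    rw [LinearMap.range_comp, Submodule.range_subtype]
    rfl
  obtain ⟨u, hu1, hu2⟩ := exists_indep
    ((Ideal.Quotient.mkₐ ℂ I).toLinearMap ∘ₗ
      (homogeneousSubmodule (Fin (N + 1)) ℂ (K + 1)).subtype)
    ((Ideal.Quotient.mkₐ ℂ (Ideal.span (G '' {i | d i ≤ K}))).toLinearMap ∘ₗ
      (homogeneousSubmodule (Fin (N + 1)) ℂ (K + 1)).subtype)
    (Nat.card {i : Fin c // d i = K + 1}) (by rw [hrange, hrange]; exact h3)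
  have e : {i : Fin c // d i = K + 1} ≃ Fin (Nat.card {i : Fin c // d i = K + 1}) :=
    Finite.equivFin _
  refine ⟨fun i => (u (e i) : Sx N), fun i => ⟨?_, ?_⟩, fun a ha => ?_⟩
  · have h := hu1 (e i)
    exact Ideal.Quotient.eq_zero_iff_mem.1 h
  · exact (mem_homogeneousSubmodule _ _).1 (u (e i)).2
  · have h4 : (fun j => a (e.symm j)) = 0 := by
      refine hu2 _ ?_
      rw [← e.sum_comp]
      have h5 : Ideal.Quotient.mk (Ideal.span (G '' {i | d i ≤ K}))
          (∑ i, C (a i) * (u (e i) : Sx N)) = 0 := Ideal.Quotient.eq_zero_iff_mem.2 ha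
      rw [map_sum] at h5
      rw [← h5]
      refine Finset.sum_congr rfl fun i _ => ?_
      rw [Equiv.symm_apply_apply, ← smul_eq_C_mul]
      rfl
    funext i
    have h6 := congrFun h4 (e i)
    rw [Equiv.symm_apply_apply] at h6
    exact h6

end Pool.Agent.Lib.MP_776403_ag.SD.H
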