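import Pool.Agent.Lib.MP_776403_ag.SD.Main
import Pool.Agent.Lib.MP_776403_ag.SD.H.Defs
import Pool.Agent.Lib.MP_776403_ag.SD.H.B
import Pool.Agent.Lib.MP_776403_ag.SD.H.B1K
import Pool.Agent.Lib.MP_776403_ag.SD.H.B2
import Pool.Agent.Lib.MP_776403_ag.SD.H.B3
import Pool.Agent.Lib.MP_776403_ag.SD.H.B4
import Pool.Agent.Lib.MP_776403_ag.SD.H.B5
import Pool.Agent.Lib.MP_776403_ag.SD.H.Ind
import Pool.Agent.Lib.MP_776403_ag.SD.H.L3
import Pool.Agent.Lib.MP_776403_ag.SD.H.L3pp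
import Pool.Agent.Lib.MP_776403_ag.SD.H.Pt
import Pool.Agent.Lib.MP_776403_ag.SD.H.RegDim
import Pool.Agent.Lib.MP_776403_ag.SD.H.W
import Pool.Agent.Lib.MP_776403_ag.SD.H.E.Col
import Pool.Agent.Lib.MP_776403_ag.SD.H.E.ColT
import Pool.Agent.Lib.MP_776403_ag.SD.H.E.E0
import Pool.Agent.Lib.MP_776403_ag.SD.H.E.EMain
import Pool.Agent.Lib.MP_776403_ag.SD.H.E.LineOf
import Pool.Agent.Lib.MP_776403_ag.SD.H.A.AOf
import Pool.Agent.Lib.MP_776403_ag.SD.H.A.Ari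
import Pool.Agent.Lib.MP_776403_ag.SD.H.A.CaseOne
import Pool.Agent.Lib.MP_776403_ag.SD.H.A.CaseTwo
import Pool.Agent.Lib.MP_776403_ag.SD.H.A.Fam
import Pool.Agent.Lib.MP_776403_ag.SD.H.A.FinA
import Pool.Agent.Lib.MP_776403_ag.SD.H.A.IndA
import Pool.Agent.Lib.MP_776403_ag.SD.H.A.PtA
import Pool.Agent.Lib.MP_776403_ag.SD.H.A.SigA

/-!
# THEOREM SD from the hypotheses `H.Hyp`: assembly
-/

set_option autoImplicit false

namespace Pool.Agent.Lib.MP_776403_ag.SD.H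

theorem mN : S_N := by
  intro N c d I hH J hJp hJh hIJ q sig del f h1 h2 h3 h4 h5 h6 hD
  refine mN2 tD1 tD6p tNull mPerp N c d I hH.prime hH.hom hH.smooth J hJp hJh hIJ c hH.pos
    (hH.numW J hJp hJh hIJ) q sig del f h1 h2 h3 h4 h5 h6 ?_
  have e : c + (c - q) + 1 = c - q + 1 + c := by omega
  rw [e]
  exact hD

theorem mCol : S_Col := eCol eLinB mHom mCrL (eLineI eLinB)

theorem mColT : S_ColT :=
  eColT eLinB mCr mCrL mCol (eSat eLinB mLoc mCr mCrL) (eAdj ePhi)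

theorem mE0 : S_E0 := eE0 (eDua ePhi) mCol eFinB mPsi1

theorem mE : S_E := eEMain (eDua ePhi) mCol mColT eFinB mPsi1 mPsi2

theorem mLine : S_Line := eLineOf mLoc mGood mE0 mWH mPtE mKrull mFrac mP0

theorem mPtA : S_PtA := aPtA mP0 aNrmU aCram (aAff mLinS)

theorem mSigA : S_SigA := aSigA mPtA mSecVal

theorem mFam : S_Fam := aFam mE mWH mPtE mKrull aGen aAri

theorem mFinA : S_FinA := aFinA mPerp mN

theorem mIndA : S_IndA := aIndA aCombV tL3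

theorem mCaseOne : S_CaseOne :=
  aCaseOne mLoc mGood mRepar mE mWH mPtE mKrull mFrac mP0 mLinS mPerp mFinA

theorem mCaseTwo : S_CaseTwo :=
  aCaseTwo mLoc mGood mRepar aDualV (aNrmE aNrmU) aCombV mFam mPtA mSigA mIndA mP0 mFrac mFinA

/-- Step A. -/
theorem mA : S_A := aAOf tL3 mSecVal mPerp mCaseOne mCaseTwo

theorem mB1K : S_B1K := tB1K (tB1 (tKosR tPencil tKos1 tKos2) tKosI tKosM)

theorem mNe : S_Ne := tNe tNull

theorem mRegDim : S_RegDim := tRegDim tNull mNe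

theorem mB3 : S_B3 := tB3 (tB2 mB1K mRegDim) tNull mNe tMinor tDetHom

theorem mB4 : S_B4 := tB4 mB3 (tL3pp tL3) mLine mMeet

theorem mB5 : S_B5 := tB5 mB4 mN mLine mNe tMono

/-- Step B. -/
theorem mB : S_B := tB (tW mB1K mRegDim) mB4 mB5

/-- THEOREM SD from the hypotheses `H.Hyp`. -/
theorem mSDH (N c : ℕ) (d : Fin c → ℕ) (I : Ideal (Sx N)) (h : Hyp I d) :
    ∃ G : Fin c → Sx N, (∀ i, (G i).IsHomogeneous (d i)) ∧ I = Ideal.span (Set.range G) :=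
  tInd mA mB N c d I h

end Pool.Agent.Lib.MP_776403_ag.SD.H
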