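import Pool.Agent.Lib.MP_776403_ag.SD.SpecB
import Pool.Agent.Lib.MP_776403_ag.SD.H.Defs

/-!
# Propagation of conormal vectors along a line, for forms
-/

set_option autoImplicit false

open MvPolynomial

noncomputable section

namespace Pool.Agent.Lib.MP_776403_ag.SD.H

theorem tL3pp : S_L3 → S_L3'' := by
  intro h3 N c d I hI K G hK hD hP x v hl F hF hFh hx t
  have hs : gradL x v F ∈ Sec I x v (K + 1) := gradL_mem_Sec hl.1 hF hFh
  have hv : hval (gradL x v F) (K + 1) 1 0 ∈ GS d K G ((1 : ℂ) • x + (0 : ℂ) • v) := by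
    rw [gradL_hval hFh (by omega), one_smul, zero_smul, add_zero]
    exact hx
  obtain ⟨L, -, hL0, hL⟩ := h3 N c d I hI K (K + 1) G hK (Or.inr rfl) hD hP x v hl _ hs 1 0
    (Or.inl one_ne_zero) hv
  rw [← gradL_eval]
  have h1 : (fun k => (gradL x v F k).eval t) =
      ∑ i, (L i).eval t • grad (G i) (x + t • v) := by
    funext k
    rw [hL]
    simp only [Finset.sum_apply, Pi.smul_apply, smul_eq_mul, Polynomial.eval_finsetSum,
      Polynomial.eval_mul]
    refine Finset.sum_congr rfl fun i _ => ?_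
    rw [← gradL_eval]
  rw [h1]
  refine Submodule.sum_mem _ fun i _ => ?_
  by_cases hi : d i ≤ K
  · exact Submodule.smul_mem _ _ (Submodule.subset_span ⟨i, hi, rfl⟩)
  · rw [hL0 i (by omega), Polynomial.eval_zero, zero_smul]
    exact Submodule.zero_mem _

end Pool.Agent.Lib.MP_776403_ag.SD.H
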